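import Pool.Agent.Q93.Pick.Pseudo

/-!
A complete pseudo-Pick pair of kernels on a three-point set with `l / k` not positive semidefinite.
-/

set_option autoImplicit false

namespace Pool.Agent.Results.MP_cbd977_an.PseudoPick

open Q93.Pick Matrix
open scoped ComplexOrder

/-- **There are (strictly positive definite) kernels `k`, `l` on a three-point set, with `k`
non-vanishing, such that `(k, l)` is complete pseudo-Pick and `l / k` is not positive
semidefinite.** (Explicitly `k = 1` and `l = 1` on the diagonal, `k = -2/5` and `l = 1/4` off the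
diagonal.) -/
theorem result : ∃ k l : Kernel (Fin 3), k.fn.PosDef ∧ l.fn.PosDef ∧ (∀ x y, k.fn x y ≠ 0) ∧
    IsCompletePseudoPick k l ∧ ¬ (Matrix.of fun x y => l.fn x y / k.fn x y).PosSemidef := by
  refine ⟨Three.kK, Three.lK, Three.kMat_posDef, Three.lMat_posDef, ?_, Three.complete,
    Three.quot_not_psd⟩
  intro x y
  simp only [Three.kK, Three.kMat, Matrix.of_apply, Three.kap]
  split_ifs <;> norm_num

end Pool.Agent.Results.MP_cbd977_an.PseudoPick
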